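import Pool.Agent.Helper35.BR.Defs

/-!
# BR, P4: the entries of finitely many representations generate a finitely generated subalgebra
-/

set_option autoImplicit false

namespace Pool.Agent.Helper29.BR

open Pool.Agent.Helper35.BR

theorem descend_S {R : Type} [CommRing R] {E : Type} [Field E] [Algebra R E] {r : ℕ}
    (A : Fin r → Type) [∀ i, Ring (A i)] [∀ i, Algebra R (A i)] [∀ i, Module.Finite R (A i)]
    (m : Fin r → ℕ) (ρ : ∀ i, A i →+* Matrix (Fin (m i)) (Fin (m i)) E)
    (hρ : ∀ i, Over (algebraMap R E) (ρ i)) :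
    ∃ S : Subalgebra R E, S.FG ∧ ∃ ρS : ∀ i, A i →+* Matrix (Fin (m i)) (Fin (m i)) S,
      (∀ i, Over (algebraMap R S) (ρS i)) ∧
      ∀ i, ((S.val : S →+* E).mapMatrix).comp (ρS i) = ρ i := by
  classical
  have h1 : ∀ i, ∃ T : Finset (A i), Submodule.span R (T : Set (A i)) = ⊤ :=
    fun i => (Module.Finite.fg_top : (⊤ : Submodule R (A i)).FG)
  choose T hT using h1
  set U : Set E := ⋃ i, ⋃ a ∈ T i, ⋃ p, ⋃ q, {ρ i a p q} with hU
  have hfin : U.Finite := Set.finite_iUnion fun i => (T i).finite_toSet.biUnion fun a _ =>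
    Set.finite_iUnion fun p => Set.finite_iUnion fun q => Set.finite_singleton _
  have hsub : ∀ i, ∀ a ∈ T i, ∀ p q, ρ i a p q ∈ Algebra.adjoin R U := by
    intro i a ha p q
    apply Algebra.subset_adjoin
    simp only [hU, Set.mem_iUnion, Set.mem_singleton_iff]
    exact ⟨i, a, ha, p, q, rfl⟩
  have hmem : ∀ i (a : A i) p q, ρ i a p q ∈ Algebra.adjoin R U := by
    intro i a
    have ha : a ∈ Submodule.span R (T i : Set (A i)) := by rw [hT i]; trivial
    refine Submodule.span_induction (p := fun a _ => ∀ p q, ρ i a p q ∈ Algebra.adjoin R U)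
      ?_ ?_ ?_ ?_ ha
    · intro x hx
      exact hsub i x hx
    · intro p q
      rw [map_zero]
      exact (Algebra.adjoin R U).zero_mem
    · intro x y _ _ hx hy p q
      rw [map_add]
      exact (Algebra.adjoin R U).add_mem (hx p q) (hy p q)
    · intro c x _ hx p q
      rw [(hρ i).smul, Matrix.smul_apply, smul_eq_mul]
      exact (Algebra.adjoin R U).mul_mem ((Algebra.adjoin R U).algebraMap_mem c) (hx p q)
  refine ⟨Algebra.adjoin R U, ⟨hfin.toFinset, by rw [Set.Finite.coe_toFinset]⟩,
    fun i => ⟨⟨⟨fun a => Matrix.of fun p q => ⟨ρ i a p q, hmem i a p q⟩, ?_⟩, ?_⟩, ?_, ?_⟩,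
    ?_, ?_⟩
  · ext p q
    change ρ i 1 p q = (((1 : Matrix (Fin (m i)) (Fin (m i)) (Algebra.adjoin R U)) p q :
      Algebra.adjoin R U) : E)
    rw [map_one]
    by_cases h : p = q
    · subst h; simp
    · simp [Matrix.one_apply_ne h]
  · intro a b
    ext p q
    change ρ i (a * b) p q = (((Matrix.of fun p q => (⟨ρ i a p q, hmem i a p q⟩ :
      Algebra.adjoin R U)) * (Matrix.of fun p q => (⟨ρ i b p q, hmem i b p q⟩ :
      Algebra.adjoin R U))) p q : E)
    rw [map_mul, Matrix.mul_apply, Matrix.mul_apply]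
    simp
  · ext p q
    change ρ i 0 p q = _
    rw [map_zero]
    rfl
  · intro a b
    ext p q
    change ρ i (a + b) p q = _
    rw [map_add]
    rfl
  · intro i c
    ext p q
    change ρ i (algebraMap R (A i) c) p q = _
    rw [hρ i c, Matrix.algebraMap_matrix_apply, Matrix.algebraMap_matrix_apply]
    by_cases h : p = q
    · rw [if_pos h, if_pos h]; rfl
    · rw [if_neg h, if_neg h]; rfl
  · intro i
    ext a p q
    rfl

end Pool.Agent.Helper29.BR
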